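import Pool.Agent.Lib.MP_f61096_al.Main

set_option autoImplicit false

namespace Pool.Agent.Results.MP_f61096_al.SolvableFPDiagramAbelian

open DG

universe u v z

/-- A group isomorphic to a diagram group is abelian as soon as it is solvable and finitely
presented. -/
theorem result {α : Type u} (P : Pres.{u, v} α) (w : List α) (_hw : w ≠ []) (G : Type z) [Group G]
    (e : G ≃* DiagramGroup P w) (hs : Group.IsSolvable G) (hf : Group.IsFinitelyPresented G)
    (x y : G) : x * y = y * x := by
  have h1 : Group.IsFinitelyPresented (DiagramGroup P w) := Group.IsFinitelyPresented.equiv e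
  have h2 : Group.IsSolvable (DiagramGroup P w) :=
    Group.isSolvable_of_surjective (f := e.toMonoidHom) e.surjective
  apply e.injective
  rw [map_mul, map_mul]
  exact diagramGroup_comm P w (e x) (e y)

end Pool.Agent.Results.MP_f61096_al.SolvableFPDiagramAbelian
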